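import Pool.Agent.Helper96.GU.StF

/-!
Project GF (MP_2c90c1_al), module EXT: elements of `N` are closed in a complex over the right
units.
-/

set_option autoImplicit false

namespace Pool.Agent.Helper65.GF

open Pool.Agent.Helper96.UT hiding StTOP TopV TopE tht Bd VC EC
open Pool.Agent.Helper96.GU

/-- The elements which fix `v` and have a path in `E`. -/
private def pathGroup {α Ω : Type} [MulAction (FreeGroup α) Ω] (E : Set (Ω × α)) (v : Ω) :
    Subgroup (FreeGroup α) where
  carrier := {g | act v g = v ∧ ∃ P : List (α × Bool), InE E v P ∧ FreeGroup.mk P = g}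
  mul_mem' := by
    rintro g h ⟨hg, P, hP, rfl⟩ ⟨hh, R, hR, rfl⟩
    refine ⟨by rw [act_mul, hg, hh], P ++ R, ?_, by rw [mk_append]⟩
    rw [InE_append, hg]
    exact ⟨hP, hR⟩
  one_mem' := ⟨act_one v, [], trivial, mk_nil⟩
  inv_mem' := by
    rintro g ⟨hg, P, hP, rfl⟩
    refine ⟨act_inv_eq hg, FreeGroup.invRev P, ?_, by rw [mk_invRev]⟩
    have h := InE_invRev hP
    rwa [hg] at h

/-- Finitely many words suffice. -/
private theorem fin_words {α : Type} (r : FreeMonoid (α × Bool)) (Z : Cyc α) (g : FreeGroup α)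
    (hg : g ∈ NT r Z) :
    ∃ W : Finset (List (α × Bool)), (∀ p ∈ W, RU (io r p)) ∧
      g ∈ Subgroup.closure {x : FreeGroup α | ∃ p ∈ W,
        x = FreeGroup.mk p * Z.s * (FreeGroup.mk p)⁻¹} := by
  classical
  unfold NT at hg
  induction hg using Subgroup.closure_induction with
  | mem x hx =>
    obtain ⟨p, hp, rfl⟩ := hx
    exact ⟨{p}, by simpa using hp, Subgroup.subset_closure ⟨p, by simp, rfl⟩⟩
  | one => exact ⟨∅, by simp, one_mem _⟩
  | mul a b _ _ iha ihb =>
    obtain ⟨W₁, h1, h2⟩ := iha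
    obtain ⟨W₂, h3, h4⟩ := ihb
    refine ⟨W₁ ∪ W₂, ?_, mul_mem ?_ ?_⟩
    · intro p hp
      rcases Finset.mem_union.1 hp with h | h
      · exact h1 p h
      · exact h3 p h
    · refine Subgroup.closure_mono ?_ h2
      rintro x ⟨p, hp, rfl⟩
      exact ⟨p, Finset.mem_union_left _ hp, rfl⟩
    · refine Subgroup.closure_mono ?_ h4
      rintro x ⟨p, hp, rfl⟩
      exact ⟨p, Finset.mem_union_right _ hp, rfl⟩
  | inv a _ iha =>
    obtain ⟨W₁, h1, h2⟩ := iha
    exact ⟨W₁, h1, inv_mem h2⟩

theorem tEXT : StVNT → StEXT := by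
  classical
  intro hVNT α r Z hr g hg
  obtain ⟨W, hWR, hgW⟩ := fin_words r Z g hg
  set L₁ : Subgroup (FreeGroup α) := Subgroup.closure {x : FreeGroup α | ∃ p ∈ W,
    x = FreeGroup.mk p * Z.s * (FreeGroup.mk p)⁻¹} with hL₁
  have hLN : L₁ ≤ NT r Z := by
    refine Subgroup.closure_mono ?_
    rintro x ⟨p, hp, rfl⟩
    exact ⟨p, hWR p hp, rfl⟩
  have hgen : ∀ p ∈ W, FreeGroup.mk p * Z.s * (FreeGroup.mk p)⁻¹ ∈ L₁ := fun p hp =>
    Subgroup.subset_closure ⟨p, hp, rfl⟩
  let v : FreeGroup α ⧸ L₁ := ((1 : FreeGroup α) : FreeGroup α ⧸ L₁)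
  have hv : ∀ g h : FreeGroup α, act v g = act v h ↔ g * h⁻¹ ∈ L₁ := act_coset_eq_EXZ L₁
  have hv1 : ∀ g ∈ L₁, act v g = v := by
    intro g hg
    have := (hv g 1).2 (by simpa using hg)
    rw [this, act_one]
  have hv2 : ∀ g, act v g = v → g ∈ L₁ := by
    intro g hg
    have := (hv g 1).1 (by rw [hg, act_one])
    simpa using this
  have hrot : ∀ p ∈ W, act v (FreeGroup.mk p * Z.s) = act v (FreeGroup.mk p) := by
    intro p hp
    rw [hv]
    exact hgen p hp
  set W' : Finset (List (α × Bool)) := W.image fun p => p ++ seg Z.c 0 Z.n with hW'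
  set C : Finset (FreeGroup α ⧸ L₁) := W.image fun p => act v (FreeGroup.mk p) with hC
  have hfixW : ∀ p ∈ W, act (act v (FreeGroup.mk p)) Z.s = act v (FreeGroup.mk p) := by
    intro p hp
    rw [← act_mul]
    exact hrot p hp
  have hpath : ∀ w ∈ W, InE (EW W' v) v w ∧
      InE (EW W' v) (act v (FreeGroup.mk w)) (seg Z.c 0 Z.n) := by
    intro w hw
    have h1 : w ++ seg Z.c 0 Z.n ∈ W' := Finset.mem_image_of_mem _ hw
    have h2 := InE_EW (v := v) h1
    rwa [InE_append] at h2
  -- transfer of values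
  have htr : ∀ a b : List (α × Bool), RU (io r a) → RU (io r b) →
      act v (FreeGroup.mk a) = act v (FreeGroup.mk b) → io r a = io r b := by
    intro a b ha hb hab
    have h1 := (hv _ _).1 hab
    obtain ⟨w, hw1, hw2⟩ := hVNT α r Z hr _ (hLN h1)
    have h3 : io r (w ++ b) = io r b := by rw [io_append, hw2, one_mul]
    have h4 : FreeGroup.mk (w ++ b) = FreeGroup.mk a := by
      rw [mk_append, hw1, inv_mul_cancel_right]
    rw [← h3]
    exact RU_uniq ha (by rw [h3]; exact hb) h4.symm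
  have hru : ∀ q : List (α × Bool), InE (EW W' v) v q → RU (io r q) := by
    intro q
    induction q using List.reverseRecOn with
    | nil => intro _; exact RU_nil r
    | append_singleton q x ih =>
      intro h
      rw [InE_append] at h
      have hq := ih h.1
      obtain ⟨w, hw, i, hi, he⟩ := h.2.1
      obtain ⟨p, hp, rfl⟩ := Finset.mem_image.1 hw
      set w := p ++ seg Z.c 0 Z.n with hwd
      have hwR : RU (io r w) := by
        rw [hwd, io_append, ← hr, io_r, mul_one]
        exact hWR p hp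
      have htk : w.take (i + 1) = w.take i ++ [w[i]] := (List.take_append_getElem hi).symm
      have hyz : RU (io r (w.take i ++ [w[i]])) := by
        rw [← htk]
        refine RU_left (q := w.drop (i + 1)) ?_
        rw [List.take_append_drop]
        exact hwR
      have hy : RU (io r (w.take i)) := RU_left hyz
      rcases ed_eq he.symm with ⟨h1, h2⟩ | ⟨h1, h2⟩
      · have h3 : io r q = io r (w.take i) := htr _ _ hq hy h1
        rw [h2, io_append, h3, ← io_append]
        exact hyz
      · have h3 : io r q = io r (w.take i ++ [w[i]]) := by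
          refine htr _ _ hq hyz ?_
          rw [h1, mk_append, act_mul]
          rfl
        rw [h2, io_append, h3, ← io_append, RU_back hyz]
        exact hy
  refine ⟨FreeGroup α ⧸ L₁, inferInstance, v, EW W' v, C, ⟨fun g hg => hLN (hv2 g hg), hru⟩,
    ⟨?_, ?_⟩, ?_, hv1 g hgW, ?_⟩
  · intro u hu
    obtain ⟨w, hw, rfl⟩ := Finset.mem_image.1 hu
    exact hfixW w hw
  · intro u hu e he
    obtain ⟨w, hw, rfl⟩ := Finset.mem_image.1 hu
    obtain ⟨i, rfl⟩ := he
    have hfix := hfixW w hw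
    set u := act v (FreeGroup.mk w) with hu'
    have hnpos : (0 : ℤ) < Z.n := by exact_mod_cast Z.pos
    have e1 : i = i % Z.n + (i / Z.n) * Z.n := by
      have := Int.emod_add_mul_ediv i Z.n
      linarith [mul_comm (Z.n : ℤ) (i / Z.n)]
    have h0 : 0 ≤ i % Z.n := Int.emod_nonneg _ hnpos.ne'
    have h1 : i % Z.n < Z.n := Int.emod_lt_of_pos _ hnpos
    rw [e1, act_pre_per hfix, Z.per_mul]
    have h2 := (hpath w hw).2
    have h3 : InE (EW W' v) (act u (pre Z.c 0)) (seg Z.c 0 Z.n) := by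
      rw [pre_zero, act_one]; exact h2
    rw [InE_seg] at h3
    obtain ⟨t, ht⟩ := Int.eq_ofNat_of_zero_le h0
    have h4 := h3 t (by omega)
    rw [zero_add] at h4
    rw [ht]
    exact h4
  · intro φ hφ _ x q _ hx
    have key : ∀ g, g ∈ L₁ → Sa φ v g = 0 := by
      intro g hg
      rw [hL₁] at hg
      induction hg using Subgroup.closure_induction with
      | mem z hz =>
        obtain ⟨p, hp, rfl⟩ := hz
        have h1 : Sa φ (act v (FreeGroup.mk p)) Z.s = 0 :=
          hφ _ (Finset.mem_image_of_mem _ hp)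
        rw [Sa_mul, Sa_mul, hrot p hp, h1, Sa_inv]
        abel
      | one => exact Sa_one φ v
      | mul a b ha hb iha ihb =>
        have ha' : act v a = v := hv1 a ha
        rw [Sa_mul, iha, ha', ihb, add_zero]
      | inv a ha iha =>
        have ha' : act v a = v := hv1 a ha
        have h2 := Sa_inv φ v a
        rw [ha', iha, neg_zero] at h2
        exact h2
    obtain ⟨a, rfl⟩ := QuotientGroup.mk_surjective x
    have hy : ((a : FreeGroup α) : FreeGroup α ⧸ L₁) = act v a⁻¹ := by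
      rw [show act v a⁻¹ = _ from act_coset_EXZ L₁ a⁻¹, inv_inv]
    rw [hy] at hx ⊢
    rw [← act_mul] at hx
    have h3 := key _ ((hv _ _).1 hx)
    rw [Sa_mul, Sa_mul, hx, Sa_inv, Sa_mk] at h3
    have h4 : Sm φ (act v a⁻¹) q = Sa φ v a⁻¹ + Sm φ (act v a⁻¹) q + -Sa φ v a⁻¹ := by abel
    rw [h4, h3]
  · have hle : L₁ ≤ pathGroup (EW W' v) v := by
      refine (Subgroup.closure_le _).2 ?_
      rintro x ⟨w, hw, rfl⟩
      obtain ⟨hp1, hp2⟩ := hpath w hw
      have hfix := hfixW w hw
      refine ⟨?_, w ++ seg Z.c 0 Z.n ++ FreeGroup.invRev w, ?_, ?_⟩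
      · rw [act_mul, act_mul, hfix]
        exact act_inv_eq rfl
      · rw [InE_append, InE_append]
        refine ⟨⟨hp1, hp2⟩, ?_⟩
        rw [mk_append, act_mul, mk_seg_s, hfix]
        exact InE_invRev hp1
      · rw [mk_append, mk_append, mk_seg_s, mk_invRev]
    obtain ⟨-, P, hP, hPq⟩ := hle hgW
    exact ⟨P, hP, hPq⟩

end Pool.Agent.Helper65.GF
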