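import Pool.Agent.Helper96.GU.StF

/-!
Project GF (MP_2c90c1_al), module KEY: cells with a maximal step on a path in the graph of `H`.
-/

set_option autoImplicit false

namespace Pool.Agent.Helper65.GF

open Pool.Agent.Helper96.UT hiding StTOP TopV TopE tht Bd VC EC
open Pool.Agent.Helper96.GU

private theorem mod_rep {α : Type} (Z : Cyc α) (i : ℤ) :
    ∃ (k : ℕ) (t : ℤ), k < Z.n ∧ i = k + t * Z.n := by
  have hnpos : (0 : ℤ) < Z.n := by exact_mod_cast Z.pos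
  have h0 : 0 ≤ i % Z.n := Int.emod_nonneg _ hnpos.ne'
  have h1 : i % Z.n < Z.n := Int.emod_lt_of_pos _ hnpos
  obtain ⟨k, hk⟩ := Int.eq_ofNat_of_zero_le h0
  refine ⟨k, i / Z.n, by omega, ?_⟩
  have := Int.emod_add_mul_ediv i Z.n
  rw [← hk]
  linarith [mul_comm (Z.n : ℤ) (i / Z.n)]

/-- Values on the cell. -/
private theorem val_cell (hVUQ : StVUQ) {α : Type} (r : FreeMonoid (α × Bool)) (Z : Cyc α)
    (hr : FreeMonoid.toList r = seg Z.c 0 Z.n) {Ω : Type} [MulAction (FreeGroup α) Ω]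
    (v : Ω) (E : Set (Ω × α)) (hOv : Ov r Z v E) (u : Ω) (hus : act u Z.s = u) (hCE : CE Z u ⊆ E)
    (q : List (α × Bool)) (hq : InE E v q) (a : ℤ)
    (ha : act v (FreeGroup.mk q) = act u (pre Z.c a)) :
    ∃ X : IM r, RU X ∧ ∀ (Q : List (α × Bool)) (j : ℤ), InE E v Q →
      act v (FreeGroup.mk Q) = act u (pre Z.c j) → io r Q = X * sg r Z j := by
  obtain ⟨P, hP, hPm⟩ := cell_path Z u a 0
  have hp : InE E v (q ++ P) := by
    rw [InE_append, ha]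
    exact ⟨hq, InE_mono hCE hP⟩
  have hpu : act v (FreeGroup.mk (q ++ P)) = u := by
    rw [mk_append, act_mul, ha, hPm, ← act_mul, mul_inv_cancel_left, pre_zero, act_one]
  refine ⟨io r (q ++ P), hOv.ru _ hp, fun Q j hQ hQj => ?_⟩
  obtain ⟨k, t, hk, rfl⟩ := mod_rep Z j
  rw [act_pre_per hus] at hQj
  have h1 : InE E v (q ++ P ++ seg Z.c 0 k) := by
    rw [InE_append, hpu]
    refine ⟨hp, InE_mono hCE ?_⟩
    have := InE_cell Z u 0 k
    rwa [pre_zero, act_one] at this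
  have h2 : act v (FreeGroup.mk (q ++ P ++ seg Z.c 0 k)) = act u (pre Z.c k) := by
    rw [mk_append, act_mul, hpu, mk_seg, pre_zero, zero_add, inv_one, one_mul]
  rw [sg_add_mul, sg_of_lt r Z hk, ← io_append]
  exact hVUQ α r Z hr Ω v E hOv Q _ hQ h1 (hQj.trans h2.symm)

/-- Values on the graph of `H`. -/
private theorem val_H (hHPV : StHPV) {α : Type} (r : FreeMonoid (α × Bool)) (Z : Cyc α)
    (hr : FreeMonoid.toList r = seg Z.c 0 Z.n) (g : FreeGroup α) (b : ℤ)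
    (hb : g * (pre Z.c b)⁻¹ ∈ Hp r Z) :
    ∃ Y : IM r, IsUnit Y ∧ ∀ (Q : List (α × Bool)) (j : ℕ), j ≤ Z.n → RU (io r Q) →
      FreeGroup.mk Q = g * (pre Z.c b)⁻¹ * pre Z.c j → io r Q = Y * sg r Z j := by
  obtain ⟨w, hw, hwU⟩ := hHPV α r Z hr _ hb
  refine ⟨io r w, hwU, fun Q j hj hQ hQj => ?_⟩
  have h1 : io r (w ++ seg Z.c 0 j) = io r w * sg r Z j := by
    rw [io_append, sg_of_le r Z hr hj]
  rw [← h1]
  refine RU_uniq hQ ?_ ?_
  · rw [h1]
    exact RU_mul_IM2 (RU_unit hwU) (RU_sg r Z hr _)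
  · rw [mk_append, hw, hQj, mk_seg, pre_zero, zero_add, inv_one, one_mul]

private theorem final_H {α : Type} (r : FreeMonoid (α × Bool)) (Z : Cyc α) (g : FreeGroup α)
    (a b : ℤ) (X Y z : IM r) (hX : IsUnit X) (hY : IsUnit Y) (h1 : z = X * sg r Z a)
    (h2 : z = Y * sg r Z b) (hb : g * (pre Z.c b)⁻¹ ∈ Hp r Z) :
    g * (pre Z.c a)⁻¹ ∈ Hp r Z := by
  have h3 : pre Z.c b * (pre Z.c a)⁻¹ ∈ Hp r Z := by
    obtain ⟨y, rfl⟩ := hY
    refine Subgroup.subset_closure ⟨b, a, ((y⁻¹ : (IM r)ˣ) : IM r) * X,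
      (y⁻¹).isUnit.mul hX, ?_, rfl⟩
    rw [mul_assoc, ← h1, h2, ← mul_assoc, Units.inv_mul, one_mul]
  have h4 := mul_mem hb h3
  have h5 : g * (pre Z.c b)⁻¹ * (pre Z.c b * (pre Z.c a)⁻¹) = g * (pre Z.c a)⁻¹ := by group
  rwa [h5] at h4

theorem tKEY : StVUQ → StUNI → StHPV → StHPF → StKEY := by
  intro hVUQ hUNI hHPV hHPF α r Z hr Ω Θ _ _ o ho v E C hOv hCpx u hu m hMx q x hqE hqo hed
  have hs : Z.s ∈ Hp r Z := (hHPF α r Z hr).1
  have hos : act o Z.s = o := (ho _).2 hs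
  have hus : act u Z.s = u := hCpx.fix u hu
  have hCE : CE Z u ⊆ E := hCpx.sub u hu
  have hq : InE E v q := ((InE_append E v q [x]).1 hqE).1
  have hRq : RU (io r q) := hOv.ru _ hq
  have hRqx : RU (io r (q ++ [x])) := hOv.ru _ hqE
  have hmkx : FreeGroup.mk (q ++ [x]) = FreeGroup.mk q * lt x := by
    rw [mk_append]
    rfl
  -- the cell
  have hA : ∃ a a' : ℤ, (x = Z.c m ∧ a = m ∧ a' = m + 1 ∨ x = bar (Z.c m) ∧ a = m + 1 ∧ a' = m) ∧
      act v (FreeGroup.mk q) = act u (pre Z.c a) ∧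
      act v (FreeGroup.mk (q ++ [x])) = act u (pre Z.c a') := by
    rcases ed_eq hed.symm with ⟨h1, h2⟩ | ⟨h1, h2⟩
    · refine ⟨m, m + 1, Or.inl ⟨h2, rfl, rfl⟩, h1, ?_⟩
      rw [hmkx, act_mul, h1, h2, act_pre_succ]
    · rw [act_pre_succ] at h1
      refine ⟨m + 1, m, Or.inr ⟨h2, rfl, rfl⟩, h1, ?_⟩
      rw [hmkx, act_mul, h1, h2, lt_bar, ← act_pre_succ]
      exact act_inv_eq rfl
  obtain ⟨a, a', haa, hqa, hqxa⟩ := hA
  obtain ⟨X, hXR, hX⟩ := val_cell hVUQ r Z hr v E hOv u hus hCE q hq a hqa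
  have hX1 := hX q a hq hqa
  have hX2 := hX (q ++ [x]) a' hqE hqxa
  -- the graph of `H`
  have hB : ∃ k b b' : ℕ, k < Z.n ∧
      (x = Z.c k ∧ b = k ∧ b' = k + 1 ∨ x = bar (Z.c k) ∧ b = k + 1 ∧ b' = k) ∧
      act o (FreeGroup.mk q) = act o (pre Z.c b) ∧
      (pre Z.c b)⁻¹ * pre Z.c b' = lt x := by
    have h0 := ((InE_append (CE Z o) o q [x]).1 hqo).2.1
    obtain ⟨i, hi⟩ := h0
    obtain ⟨k, t, hk, rfl⟩ := mod_rep Z i
    rw [act_pre_per hos, Z.per_mul] at hi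
    rcases ed_eq hi.symm with ⟨h1, h2⟩ | ⟨h1, h2⟩
    · refine ⟨k, k, k + 1, hk, Or.inl ⟨h2, rfl, rfl⟩, h1, ?_⟩
      push_cast
      rw [pre_succ, inv_mul_cancel_left, h2]
    · rw [act_pre_succ] at h1
      refine ⟨k, k + 1, k, hk, Or.inr ⟨h2, rfl, rfl⟩, by push_cast; exact h1, ?_⟩
      push_cast
      rw [pre_succ, h2, lt_bar]
      group
  obtain ⟨k, b, b', hk, hbb, hob, hpb⟩ := hB
  have hh : FreeGroup.mk q * (pre Z.c b)⁻¹ ∈ Hp r Z := by
    rw [← ho, act_mul, hob]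
    exact act_inv_eq rfl
  obtain ⟨Y, hYU, hY⟩ := val_H hHPV r Z hr (FreeGroup.mk q) b hh
  have hbn : b ≤ Z.n := by rcases hbb with ⟨-, rfl, -⟩ | ⟨-, rfl, -⟩ <;> omega
  have hbn' : b' ≤ Z.n := by rcases hbb with ⟨-, -, rfl⟩ | ⟨-, -, rfl⟩ <;> omega
  have hY1 := hY q b hbn hRq (by group)
  have hY2 := hY (q ++ [x]) b' hbn' hRqx (by rw [hmkx, mul_assoc, hpb])
  -- comparison
  have hcmp : Y * sg r Z (tl Z k) = X * sg r Z (tl Z m) ∧ (Z.c k).1 = (Z.c m).1 := by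
    rcases haa with ⟨hx, rfl, rfl⟩ | ⟨hx, rfl, rfl⟩ <;> rcases hbb with ⟨hx', rfl, rfl⟩ | ⟨hx', rfl, rfl⟩
    · have e : Z.c (b : ℤ) = Z.c a := by rw [← hx, ← hx']
      refine ⟨?_, by rw [e]⟩
      unfold tl
      rw [e]
      split
      · rw [← hY1, ← hX1]
      · rw [← hX2, hY2]
        push_cast
        rfl
    · have e : Z.c (b' : ℤ) = bar (Z.c a) := by
        rw [← hx, hx', bar_bar]
      refine ⟨?_, by rw [e]; rfl⟩
      unfold tl
      rw [e]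
      cases h2 : (Z.c a).2
      · simp only [bar, h2, Bool.not_false, if_true, Bool.false_eq_true, if_false]
        rw [← hY2, ← hX2]
      · simp only [bar, h2, Bool.not_true, if_true, Bool.false_eq_true, if_false]
        rw [← hX1, hY1]
        push_cast
        rfl
    · have e : Z.c (b : ℤ) = bar (Z.c a') := by
        rw [← hx, hx']
      refine ⟨?_, by rw [e]; rfl⟩
      unfold tl
      rw [e]
      cases h2 : (Z.c a').2
      · simp only [bar, h2, Bool.not_false, if_true, Bool.false_eq_true, if_false]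
        rw [← hY1, ← hX1]
      · simp only [bar, h2, Bool.not_true, if_true, Bool.false_eq_true, if_false]
        rw [← hX2, hY2]
        push_cast
        rfl
    · have e : Z.c (b' : ℤ) = Z.c a' := bar_inj (by rw [← hx, ← hx'])
      refine ⟨?_, by rw [e]⟩
      unfold tl
      rw [e]
      split
      · rw [← hY2, ← hX2]
      · rw [← hX1, hY1]
        push_cast
        rfl
  have hXU : IsUnit X := hUNI α r Z hr X Y (tl Z k) (tl Z m) hYU hXR hcmp.1 (hMx k hcmp.2)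
  have hfin := final_H r Z (FreeGroup.mk q) a b X Y (io r q) hXU hYU hX1 hY1 hh
  rcases haa with ⟨hx, rfl, rfl⟩ | ⟨hx, rfl, rfl⟩
  · exact Or.inl ⟨hx, hqa, hfin⟩
  · exact Or.inr ⟨hx, hqa, hfin⟩

end Pool.Agent.Helper65.GF
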